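import Pool.Agent.N558.AW.Even2

/-!
# Evenness: the deformation has no zero, value at zero (part 3 of the proof of `St_even`)
-/

set_option autoImplicit false

namespace Pool.Agent.N558.AW

open Polynomial Matrix

variable {N : Type} [Field N]

/-! ## The determinant does not vanish -/

/-- If `(C T - A) • 1 - C z • (L S)` has a vector of small degree in its image, it is zero. -/
lemma small_degree (m b : ℕ) (T z : N) (A : N[X]) (S L : Matrix (Fin m) (Fin m) N[X]) (hb : 0 < b)
    (hA : A.natDegree = b) (hLS : ∀ l l', ((L * S) l l').natDegree < b) (p g : Fin m → N[X])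
    (hp : ∀ l, (p l).degree < b)
    (h : ∀ l, p l = (C T - A) * g l - C z * ∑ l', (L * S) l l' * g l') : g = 0 := by
  classical
  by_contra hg
  obtain ⟨l0, hl0⟩ : ∃ l, g l ≠ 0 := by
    by_contra hcon
    push Not at hcon
    exact hg (funext hcon)
  obtain ⟨l, hl, hmax⟩ := Finset.exists_max_image (Finset.univ.filter fun l => g l ≠ 0)
    (fun l => (g l).natDegree) ⟨l0, by simpa using hl0⟩
  have hgl : g l ≠ 0 := by simpa using hl
  have hmax' : ∀ l', (g l').natDegree ≤ (g l).natDegree := by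
    intro l'
    by_cases h0 : g l' = 0
    · rw [h0]; simp
    · exact hmax l' (by simpa using h0)
  have h1 := congrArg (fun q : N[X] => q.coeff (b + (g l).natDegree)) (h l)
  simp only [Polynomial.coeff_sub, Polynomial.coeff_C_mul, Polynomial.finsetSum_coeff] at h1
  rw [Polynomial.coeff_eq_zero_of_degree_lt ((hp l).trans_le (by exact_mod_cast Nat.le_add_right _ _)),
    Finset.sum_eq_zero, mul_zero, sub_zero] at h1
  · have hdeg : (C T - A).natDegree = b := by
      rw [Polynomial.natDegree_sub, Polynomial.natDegree_sub_C, hA]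
    have h2 : ((C T - A) * g l).coeff (b + (g l).natDegree) =
        (C T - A).leadingCoeff * (g l).leadingCoeff := by
      conv_lhs => rw [← hdeg]
      exact Polynomial.coeff_mul_degree_add_degree _ _
    rw [h2] at h1
    rcases mul_eq_zero.1 h1.symm with h3 | h3
    · rw [Polynomial.leadingCoeff_eq_zero] at h3
      rw [h3] at hdeg
      simp at hdeg
      omega
    · exact hgl (Polynomial.leadingCoeff_eq_zero.1 h3)
  · intro l' _
    by_cases h0 : g l' = 0
    · rw [h0, mul_zero, Polynomial.coeff_zero]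
    · apply Polynomial.coeff_eq_zero_of_natDegree_lt
      refine lt_of_le_of_lt Polynomial.natDegree_mul_le ?_
      have := hLS l l'
      have := hmax' l'
      omega

lemma det_ne_zero (m b : ℕ) (hb : 0 < b) (T z : N) (A q : N[X])
    (S L : Matrix (Fin m) (Fin m) N[X]) (hA : A.natDegree = b) (hdet : S.det = q ^ 2)
    (hLS : ∀ l l', ((L * S) l l').natDegree < b) (hcop : IsCoprime (C T - A) q)
    (S' : Matrix (Fin b × Fin m) (Fin b × Fin m) N) (hS' : DivRel m b T A S L z S') :
    S'.det ≠ 0 := by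
  classical
  intro hzero
  obtain ⟨c, hc0, hc⟩ := Matrix.exists_mulVec_eq_zero_iff.2 hzero
  obtain ⟨h, hh⟩ := hS'
  have hq : q ≠ 0 := by
    rintro rfl
    rw [isCoprime_zero_right] at hcop
    have h1 := Polynomial.natDegree_eq_zero_of_isUnit hcop
    rw [Polynomial.natDegree_sub, Polynomial.natDegree_sub_C, hA] at h1
    omega
  set p : Fin m → N[X] := fun l => ∑ j : Fin b, C (c (j, l)) * X ^ (j : ℕ) with hp
  set H : Fin m → N[X] := fun k => ∑ x, C (c x) * h x k with hH
  -- `S p = Q H`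
  have h1 : ∀ l', ∑ l, S l' l * p l =
      ∑ k, ((C T - A) * (if l' = k then 1 else 0) - C z * (S * L) l' k) * H k := by
    intro l'
    have h2 : ∑ l, S l' l * p l = ∑ x : Fin b × Fin m, C (c x) * (X ^ (x.1 : ℕ) * S l' x.2) := by
      rw [Fintype.sum_prod_type, Finset.sum_comm]
      refine Finset.sum_congr rfl fun l _ => ?_
      rw [hp, Finset.mul_sum]
      refine Finset.sum_congr rfl fun j _ => ?_
      ring
    rw [h2]
    simp only [hh, mul_add, Finset.sum_add_distrib]
    have h3 : ∑ x : Fin b × Fin m, C (c x) * ∑ j' : Fin b, C (S' (j', l') x) * X ^ (j' : ℕ) = 0 := by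
      simp only [Finset.mul_sum]
      rw [Finset.sum_comm]
      refine Finset.sum_eq_zero fun j' _ => ?_
      have h4 : ∑ x, S' (j', l') x * c x = 0 := by
        have := congrFun hc (j', l')
        simpa [Matrix.mulVec, dotProduct] using this
      have h5 : ∑ x : Fin b × Fin m, C (c x) * (C (S' (j', l') x) * X ^ (j' : ℕ)) =
          C (∑ x, S' (j', l') x * c x) * X ^ (j' : ℕ) := by
        rw [map_sum, Finset.sum_mul]
        refine Finset.sum_congr rfl fun x _ => ?_
        rw [C_mul]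
        ring
      rw [h5, h4, map_zero, zero_mul]
    rw [h3, add_zero]
    simp only [Finset.mul_sum]
    rw [Finset.sum_comm]
    refine Finset.sum_congr rfl fun k _ => ?_
    rw [hH, Finset.mul_sum]
    refine Finset.sum_congr rfl fun x _ => ?_
    ring
  -- `(T - A) H = S w`, `w = p + z L H`
  set w : Fin m → N[X] := fun l => p l + C z * (L *ᵥ H) l with hw
  have h2 : (C T - A) • H = S *ᵥ w := by
    funext l'
    have h3 := h1 l'
    rw [Finset.sum_congr rfl fun k _ => sub_mul _ _ (H k), Finset.sum_sub_distrib] at h3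
    have h4 : ∑ k, (C T - A) * (if l' = k then (1 : N[X]) else 0) * H k = (C T - A) * H l' := by
      rw [Finset.sum_eq_single l']
      · simp
      · intro k _ hk
        rw [if_neg (Ne.symm hk)]
        ring
      · intro h; exact absurd (Finset.mem_univ _) h
    rw [h4] at h3
    have h5 : ∑ k, C z * (S * L) l' k * H k = C z * (S *ᵥ (L *ᵥ H)) l' := by
      rw [Matrix.mulVec_mulVec, Matrix.mulVec, dotProduct, Finset.mul_sum]
      refine Finset.sum_congr rfl fun k _ => ?_
      ring
    rw [h5] at h3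
    have h6 : w = p + C z • (L *ᵥ H) := by
      funext l
      simp [hw]
    rw [h6, Matrix.mulVec_add, Matrix.mulVec_smul, Pi.add_apply, Pi.smul_apply, Pi.smul_apply,
      smul_eq_mul, smul_eq_mul]
    have h7 : (S *ᵥ p) l' = ∑ l, S l' l * p l := rfl
    rw [h7, h3]
    ring
  -- divisibility
  have h3 : (C T - A) • (S.adjugate *ᵥ H) = (q ^ 2) • w := by
    rw [← Matrix.mulVec_smul, h2, Matrix.mulVec_mulVec, Matrix.adjugate_mul, hdet,
      Matrix.smul_mulVec, Matrix.one_mulVec]
  have h4 : ∀ l, q ^ 2 ∣ (S.adjugate *ᵥ H) l := by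
    intro l
    have h5 := congrFun h3 l
    rw [Pi.smul_apply, Pi.smul_apply, smul_eq_mul, smul_eq_mul] at h5
    have h6 : IsCoprime (q ^ 2) (C T - A) := IsCoprime.pow_left hcop.symm
    exact h6.dvd_of_dvd_mul_left ⟨w l, h5⟩
  choose g hg using h4
  have hq2 : q ^ 2 ≠ 0 := pow_ne_zero 2 hq
  have h5 : S.adjugate *ᵥ H = (q ^ 2) • g := by
    funext l
    rw [Pi.smul_apply, smul_eq_mul, hg l]
  have h6 : H = S *ᵥ g := by
    have h7 : (q ^ 2) • H = (q ^ 2) • (S *ᵥ g) := by
      rw [← Matrix.mulVec_smul, ← h5, Matrix.mulVec_mulVec, Matrix.mul_adjugate, hdet,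
        Matrix.smul_mulVec, Matrix.one_mulVec]
    funext l
    have h8 := congrFun h7 l
    rw [Pi.smul_apply, Pi.smul_apply, smul_eq_mul, smul_eq_mul] at h8
    exact mul_left_cancel₀ hq2 h8
  have h7 : (C T - A) • g = w := by
    have h8 : S *ᵥ ((C T - A) • g) = S *ᵥ w := by
      rw [Matrix.mulVec_smul, ← h6, h2]
    have h9 : (q ^ 2) • ((C T - A) • g) = (q ^ 2) • w := by
      have := congrArg (fun v => S.adjugate *ᵥ v) h8
      simp only [Matrix.mulVec_mulVec, Matrix.adjugate_mul, hdet, Matrix.smul_mulVec,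
        Matrix.one_mulVec] at this
      exact this
    funext l
    have h10 := congrFun h9 l
    exact mul_left_cancel₀ hq2 h10
  have hpdeg : ∀ l, (p l).degree < b := by
    intro l
    rw [hp]
    refine (Polynomial.degree_sum_le _ _).trans_lt ?_
    rw [Finset.sup_lt_iff (by exact_mod_cast WithBot.bot_lt_coe b)]
    intro j _
    refine (Polynomial.degree_C_mul_X_pow_le _ _).trans_lt ?_
    exact_mod_cast j.isLt
  have hg0 : g = 0 := by
    refine small_degree m b T z A S L hb hA hLS p g hpdeg fun l => ?_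
    have h8 := congrFun h7 l
    rw [Pi.smul_apply, smul_eq_mul] at h8
    rw [h8, hw]
    have h9 : (L *ᵥ H) l = ∑ l', (L * S) l l' * g l' := by
      rw [h6, Matrix.mulVec_mulVec]
      rfl
    rw [← h9]
    ring
  have hH0 : H = 0 := by rw [h6, hg0, Matrix.mulVec_zero]
  have hp0 : ∀ l, p l = 0 := by
    intro l
    have h8 := congrFun h7 l
    rw [hg0, hw, hH0] at h8
    simpa using h8.symm
  apply hc0
  funext x
  obtain ⟨j, l⟩ := x
  have h8 := congrArg (fun f : N[X] => f.coeff j) (hp0 l)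
  simp only [hp, Polynomial.finsetSum_coeff, Polynomial.coeff_C_mul, Polynomial.coeff_X_pow,
    Polynomial.coeff_zero, mul_ite, mul_one, mul_zero] at h8
  rw [Finset.sum_eq_single j] at h8
  · simpa using h8
  · intro j' _ hj'
    rw [if_neg]
    intro h9
    exact hj' (Fin.ext h9.symm)
  · intro h; exact absurd (Finset.mem_univ _) h

/-! ## The value at `z = 0` -/

section zero

variable (b : ℕ) (g : N[X]) (hg : g ≠ 0) (hb : g.natDegree = b)

/-- Multiplication matrices modulo `g`. -/
noncomputable def mulMat : N[X] →+* Matrix (Fin b) (Fin b) N :=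
  (Algebra.leftMulMatrix ((AdjoinRoot.powerBasis hg).basis.reindex
    (finCongr ((AdjoinRoot.powerBasis_dim hg).trans hb)))).toRingHom.comp (AdjoinRoot.mk g)

lemma basis_apply (j : Fin b) : ((AdjoinRoot.powerBasis hg).basis.reindex
    (finCongr ((AdjoinRoot.powerBasis_dim hg).trans hb))) j = AdjoinRoot.root g ^ (j : ℕ) := by
  rw [Module.Basis.reindex_apply, PowerBasis.basis_eq_pow, AdjoinRoot.powerBasis_gen]
  rfl

lemma mk_sum (c : Fin b → N) : AdjoinRoot.mk g (∑ j' : Fin b, C (c j') * X ^ (j' : ℕ)) =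
    ∑ j', c j' • ((AdjoinRoot.powerBasis hg).basis.reindex
      (finCongr ((AdjoinRoot.powerBasis_dim hg).trans hb))) j' := by
  rw [map_sum]
  refine Finset.sum_congr rfl fun j _ => ?_
  rw [basis_apply b g hg hb, map_mul, map_pow, AdjoinRoot.mk_X, AdjoinRoot.mk_C, Algebra.smul_def]
  rfl

lemma mulMat_of_dvd (h : N[X]) (j : Fin b) (c : Fin b → N)
    (hc : g ∣ X ^ (j : ℕ) * h - ∑ j' : Fin b, C (c j') * X ^ (j' : ℕ)) (j' : Fin b) :
    mulMat b g hg hb h j' j = c j' := by
  have h1 : AdjoinRoot.mk g (X ^ (j : ℕ) * h) =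
      AdjoinRoot.mk g (∑ j' : Fin b, C (c j') * X ^ (j' : ℕ)) := by
    rw [← sub_eq_zero, ← map_sub, AdjoinRoot.mk_eq_zero]
    exact hc
  rw [mk_sum b g hg hb] at h1
  show Algebra.leftMulMatrix _ (AdjoinRoot.mk g h) j' j = _
  rw [Algebra.leftMulMatrix_eq_repr_mul, basis_apply b g hg hb, mul_comm, ← AdjoinRoot.mk_X, ← map_pow,
    ← map_mul, h1, Module.Basis.repr_sum_self]

lemma dvd_mulMat (h : N[X]) (j : Fin b) :
    g ∣ X ^ (j : ℕ) * h - ∑ j' : Fin b, C (mulMat b g hg hb h j' j) * X ^ (j' : ℕ) := by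
  rw [← AdjoinRoot.mk_eq_zero, map_sub, mk_sum b g hg hb, sub_eq_zero]
  have h1 : ∀ j', mulMat b g hg hb h j' j = ((AdjoinRoot.powerBasis hg).basis.reindex
      (finCongr ((AdjoinRoot.powerBasis_dim hg).trans hb))).repr
        (AdjoinRoot.mk g (X ^ (j : ℕ) * h)) j' := by
    intro j'
    show Algebra.leftMulMatrix _ (AdjoinRoot.mk g h) j' j = _
    rw [Algebra.leftMulMatrix_eq_repr_mul, basis_apply b g hg hb, mul_comm, ← AdjoinRoot.mk_X, ← map_pow,
      ← map_mul]
  rw [Finset.sum_congr rfl fun j' _ => by rw [h1 j'], Module.Basis.sum_repr]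

lemma map_mulMat (σ : N →+* N) (hσ : g.map σ = g) (h : N[X]) (hh : h.map σ = h) :
    (mulMat b g hg hb h).map σ = mulMat b g hg hb h := by
  ext j' j
  rw [Matrix.map_apply]
  symm
  refine mulMat_of_dvd b g hg hb h j (fun j' => σ (mulMat b g hg hb h j' j)) ?_ j'
  have h0 : ∀ c : Fin b → N, g ∣ X ^ (j : ℕ) * h - ∑ j' : Fin b, C (c j') * X ^ (j' : ℕ) →
      g ∣ X ^ (j : ℕ) * h - ∑ j' : Fin b, C (σ (c j')) * X ^ (j' : ℕ) := by
    intro c hc
    have h1 : g.map σ ∣ (X ^ (j : ℕ) * h - ∑ j' : Fin b, C (c j') * X ^ (j' : ℕ)).map σ :=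
      Polynomial.map_dvd σ hc
    rw [hσ, Polynomial.map_sub, Polynomial.map_mul, Polynomial.map_pow, Polynomial.map_X, hh,
      Polynomial.map_sum] at h1
    simp only [Polynomial.map_mul, Polynomial.map_C, Polynomial.map_pow, Polynomial.map_X] at h1
    exact h1
  exact h0 _ (dvd_mulMat b g hg hb h j)

lemma det_zero (m : ℕ) (T : N) (A q : N[X]) (S L : Matrix (Fin m) (Fin m) N[X])
    (hgA : g = C T - A) (hdet : S.det = q ^ 2)
    (S' : Matrix (Fin b × Fin m) (Fin b × Fin m) N) (hS' : DivRel m b T A S L 0 S') :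
    S'.det = (mulMat b g hg hb q).det ^ 2 := by
  obtain ⟨h, hh⟩ := hS'
  have h1 : ∀ (j j' : Fin b) (l l' : Fin m), mulMat b g hg hb (S l' l) j' j = S' (j', l') (j, l) := by
    intro j j' l l'
    refine mulMat_of_dvd b g hg hb (S l' l) j (fun j' => S' (j', l') (j, l)) ?_ j'
    have h2 := hh (j, l) l'
    refine ⟨h (j, l) l', ?_⟩
    rw [h2, hgA]
    simp only [map_zero, zero_mul, sub_zero]
    rw [Finset.sum_eq_single l']
    · simp
    · intro k _ hk
      rw [if_neg (Ne.symm hk)]
      ring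
    · intro h; exact absurd (Finset.mem_univ _) h
  have h2 := Matrix.det_det S (mulMat b g hg hb)
  rw [hdet, map_pow, Matrix.det_pow] at h2
  rw [h2, ← Matrix.det_submatrix_equiv_self (Equiv.prodComm (Fin m) (Fin b)) S']
  congr 1
  ext x y
  obtain ⟨l', j'⟩ := x
  obtain ⟨l, j⟩ := y
  exact (h1 j j' l l').symm

end zero

end Pool.Agent.N558.AW
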