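import Pool.Agent.N70.AW.Stm
import Pool.Agent.N558.AW.Even3

/-!
# Evenness of the action on the points: proof of `St_even`
-/

set_option autoImplicit false

namespace Pool.Agent.N558.AW

open Polynomial Matrix

theorem even : Pool.Agent.N70.AW.St_even := by
  classical
  intro N _ _ _ σ m b T A q S L PP r e es s π hm hm0 hb hA hdet hS hL hLS hcop hPP hσT hσA hσq hσS
    hσL hr hs h1 h2 _ h4 h5 h6 h7 h8
  -- the transposed pencil
  have hSL : ∀ l l', ((S * L) l l').natDegree < b := by
    intro l l'
    have h9 : S * L = (L * S).transpose := by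
      rw [Matrix.transpose_mul, hS, hL]
    rw [h9, Matrix.transpose_apply]
    exact hLS l' l
  have hPPe : ∀ l l', PP l l' = (C T - A) * (if l = l' then 1 else 0) - (L * S) l l' := by
    intro l l'
    rw [hPP, Matrix.sub_apply, Matrix.smul_apply, smul_eq_mul, Matrix.one_apply]
  have hPPt : ∀ l l', PP l' l = (C T - A) * (if l = l' then 1 else 0) - (S * L) l l' := by
    intro l l'
    have h9 : S * L = (L * S).transpose := by
      rw [Matrix.transpose_mul, hS, hL]
    rw [hPPe, h9, Matrix.transpose_apply]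
    congr 3
    exact propext ⟨Eq.symm, Eq.symm⟩
  have hdeg : ∀ l l', (PP l l').natDegree ≤ b := by
    intro l l'
    rw [hPPe]
    refine (Polynomial.natDegree_sub_le _ _).trans (max_le ?_ (hLS l l').le)
    split_ifs
    · rw [mul_one]
      refine (Polynomial.natDegree_sub_le _ _).trans (max_le ?_ hA.le)
      rw [Polynomial.natDegree_C]; exact Nat.zero_le _
    · simp
  have hcoef : ∀ l l', (PP l l').coeff b = if l = l' then -(A.coeff b) else 0 := by
    intro l l'
    rw [hPPe, Polynomial.coeff_sub, Polynomial.coeff_eq_zero_of_natDegree_lt (hLS l l'), sub_zero]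
    split_ifs
    · rw [mul_one, Polynomial.coeff_sub, Polynomial.coeff_C, if_neg hb.ne', zero_sub]
    · simp
  -- the Bezout identity
  have hbez := ev_bz_ev m b hb PP hdeg r hr e es (fun i => -(s i) ^ 2) h1 h2 h4
  have hdetbz := det_bz m b hm PP hdeg (-(A.coeff b)) hcoef
  -- square matrices
  let eqv : Fin (m * b) ≃ Fin b × Fin m :=
    (finCongr (Nat.mul_comm m b)).trans finProdFinEquiv.symm
  set Xs : Matrix (Fin (m * b)) (Fin (m * b)) N := (ev m b r e).submatrix id eqv with hXs
  set Ys : Matrix (Fin (m * b)) (Fin (m * b)) N := (ev m b r es).submatrix id eqv with hYs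
  have hprod : Xs.det * (-(A.coeff b)) ^ (b * m) * Ys.det = ∏ i, (-(s i) ^ 2) := by
    rw [← hdetbz, ← Matrix.det_diagonal, ← hbez, ← Matrix.det_submatrix_equiv_self eqv (bz m b PP),
      ← Matrix.det_transpose Ys, ← Matrix.det_mul, ← Matrix.det_mul, hXs, hYs,
      Matrix.transpose_submatrix, Matrix.submatrix_mul_equiv, Matrix.submatrix_mul_equiv,
      Matrix.submatrix_id_id]
  -- the deformation
  obtain ⟨SZ, hSZ⟩ := exists_family m b hb T A S L hA hSL
  have hnz : ∀ z : N, (SZ.det).eval z ≠ 0 := by
    intro z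
    have h9 := det_ne_zero m b hb T z A q S L hA hdet hLS hcop _ (hSZ z)
    have h10 : (SZ.det).eval z = (SZ.map (Polynomial.eval z)).det := by
      have := RingHom.map_det (Polynomial.evalRingHom z) SZ
      rw [Polynomial.coe_evalRingHom] at this
      rw [this]
      rfl
    rw [h10]
    exact h9
  have hconst : (SZ.det).eval 1 = (SZ.det).eval 0 := by
    have h9 : (SZ.det).degree = 0 := by
      by_contra hcon
      obtain ⟨z, hz⟩ := IsAlgClosed.exists_root SZ.det hcon
      exact hnz z hz
    rw [Polynomial.eq_C_of_degree_eq_zero h9, Polynomial.eval_C, Polynomial.eval_C]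
  have heval : ∀ z : N, (SZ.det).eval z = (SZ.map (Polynomial.eval z)).det := by
    intro z
    have := RingHom.map_det (Polynomial.evalRingHom z) SZ
    rw [Polynomial.coe_evalRingHom] at this
    rw [this]
    rfl
  have hg : C T - A ≠ 0 := by
    intro h9
    have h10 : (C T - A).natDegree = b := by
      rw [Polynomial.natDegree_sub, Polynomial.natDegree_sub_C, hA]
    rw [h9] at h10
    simp at h10
    omega
  have hgd : (C T - A).natDegree = b := by
    rw [Polynomial.natDegree_sub, Polynomial.natDegree_sub_C, hA]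
  set ν : N := (mulMat b (C T - A) hg hgd q).det with hν
  have hD0 : (SZ.det).eval 0 = ν ^ 2 := by
    rw [heval]
    exact det_zero b (C T - A) hg hgd m T A q S L rfl hdet _ (hSZ 0)
  -- `X = Y S_1`
  have hXY : Xs.det = Ys.det * ν ^ 2 := by
    rw [← hD0, ← hconst, heval]
    have h9 : ev m b r e = ev m b r es * SZ.map (Polynomial.eval 1) := by
      obtain ⟨h, hh⟩ := hSZ 1
      ext i x
      have h10 : ∀ l', (X ^ (x.1 : ℕ) * S l' x.2 : N[X]).eval (r i) * es i l' =
          (∑ k, (PP k l').eval (r i) * (h x k).eval (r i)) * es i l' +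
            (∑ j' : Fin b, (SZ.map (Polynomial.eval 1)) (j', l') x * r i ^ (j' : ℕ)) * es i l' := by
        intro l'
        rw [hh x l', Polynomial.eval_add, add_mul, Polynomial.eval_finsetSum,
          Polynomial.eval_finsetSum]
        congr 2
        · refine Finset.sum_congr rfl fun k _ => ?_
          rw [Polynomial.eval_mul, hPPt, C_1, one_mul]
        · refine Finset.sum_congr rfl fun j' _ => ?_
          rw [Polynomial.eval_mul, Polynomial.eval_C, Polynomial.eval_pow, Polynomial.eval_X]
      have h11 := Finset.sum_congr (rfl : (Finset.univ : Finset (Fin m)) = Finset.univ)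
        fun l' _ => h10 l'
      rw [Finset.sum_add_distrib] at h11
      have h12 : ∑ l', (∑ k, (PP k l').eval (r i) * (h x k).eval (r i)) * es i l' = 0 := by
        simp only [Finset.sum_mul]
        rw [Finset.sum_comm]
        refine Finset.sum_eq_zero fun k _ => ?_
        have h13 : ∑ l', (PP k l').eval (r i) * (h x k).eval (r i) * es i l' =
            (h x k).eval (r i) * ∑ l', (PP k l').eval (r i) * es i l' := by
          rw [Finset.mul_sum]
          refine Finset.sum_congr rfl fun l' _ => ?_
          ring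
        rw [h13, h2, mul_zero]
      rw [h12, zero_add] at h11
      have h14 : ev m b r e i x = ∑ l', (X ^ (x.1 : ℕ) * S l' x.2 : N[X]).eval (r i) * es i l' := by
        show r i ^ (x.1 : ℕ) * e i x.2 = _
        rw [h5, Finset.mul_sum]
        refine Finset.sum_congr rfl fun l' _ => ?_
        rw [Polynomial.eval_mul, Polynomial.eval_pow, Polynomial.eval_X]
        have h15 : S x.2 l' = S l' x.2 := by
          conv_lhs => rw [← hS, Matrix.transpose_apply]
        rw [h15]
        ring
      rw [h14, h11, Matrix.mul_apply, Fintype.sum_prod_type, Finset.sum_comm]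
      refine Finset.sum_congr rfl fun l' _ => ?_
      rw [Finset.sum_mul]
      refine Finset.sum_congr rfl fun j' _ => ?_
      show _ = (r i ^ (j' : ℕ) * es i l') * _
      ring
    rw [hXs, h9, hYs, ← Matrix.det_submatrix_equiv_self eqv (SZ.map (Polynomial.eval 1)),
      ← Matrix.det_mul, Matrix.submatrix_mul_equiv]
  -- the square
  obtain ⟨m', hm'⟩ := hm
  set a : N := A.coeff b with ha
  have ha0 : a ≠ 0 := by
    rw [ha, ← hA, Polynomial.coeff_natDegree, Polynomial.leadingCoeff_ne_zero]
    rintro rfl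
    simp at hA
    omega
  have hsq : (Xs.det * a ^ (b * m')) ^ 2 = (ν * ∏ i, s i) ^ 2 := by
    have h9 : (-a) ^ (b * m) = (a ^ (b * m')) ^ 2 := by
      rw [hm', ← two_mul, ← pow_mul, show b * (2 * m') = 2 * (b * m') by ring, pow_mul, neg_sq,
        ← pow_mul]
      congr 1
      ring
    have h10 : ∏ i, (-(s i) ^ 2) = (∏ i, s i) ^ 2 := by
      rw [Finset.prod_neg, Finset.card_univ, Fintype.card_fin, Finset.prod_pow]
      rw [Even.neg_one_pow, one_mul]
      exact Even.mul_right ⟨m', hm'⟩ b
    rw [h9, h10] at hprod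
    calc (Xs.det * a ^ (b * m')) ^ 2 = Xs.det * (a ^ (b * m')) ^ 2 * Xs.det := by ring
      _ = Xs.det * (a ^ (b * m')) ^ 2 * (Ys.det * ν ^ 2) := by rw [← hXY]
      _ = (Xs.det * (a ^ (b * m')) ^ 2 * Ys.det) * ν ^ 2 := by ring
      _ = (∏ i, s i) ^ 2 * ν ^ 2 := by rw [hprod]
      _ = (ν * ∏ i, s i) ^ 2 := by ring
  -- invariance
  have hσν : σ ν = ν := by
    have h9 := map_mulMat b (C T - A) hg hgd (σ : N →+* N)
      (by rw [Polynomial.map_sub, Polynomial.map_C, hσA]; congr 2) q hσq
    have h10 := RingHom.map_det (σ : N →+* N) (mulMat b (C T - A) hg hgd q)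
    rw [RingHom.mapMatrix_apply, h9] at h10
    exact h10
  have hσa : σ a = a := by
    have := congrArg (fun p : N[X] => p.coeff b) hσA
    simpa using this
  have hσs : σ (∏ i, s i) = ∏ i, s i := by
    rw [map_prod]
    simp only [h8]
    exact Equiv.prod_comp π s
  have hσX : σ Xs.det = (Equiv.Perm.sign π : ℤ) * Xs.det := by
    have h9 := RingHom.map_det (σ : N →+* N) Xs
    have h10 : (σ : N →+* N).mapMatrix Xs = Xs.submatrix π id := by
      ext i x
      rw [RingHom.mapMatrix_apply, Matrix.map_apply, Matrix.submatrix_apply, hXs,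
        Matrix.submatrix_apply, Matrix.submatrix_apply]
      show σ (r i ^ _ * e i _) = r (π i) ^ _ * e (π i) _
      rw [map_mul, map_pow, h6, h7]
      rfl
    rw [h10, Matrix.det_permute] at h9
    exact h9
  have hX0 : Xs.det ≠ 0 := by
    intro h9
    rw [h9, zero_mul, zero_mul] at hprod
    have h10 := Finset.prod_eq_zero_iff.1 hprod.symm
    obtain ⟨i, _, hi⟩ := h10
    exact hs i (by simpa using hi)
  have hfin : ((Equiv.Perm.sign π : ℤ) : N) * (Xs.det * a ^ (b * m')) = Xs.det * a ^ (b * m') := by
    have h9 : σ (Xs.det * a ^ (b * m')) = ((Equiv.Perm.sign π : ℤ) : N) * (Xs.det * a ^ (b * m')) := by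
      rw [map_mul, map_pow, hσX, hσa]
      ring
    rw [← h9]
    rcases sq_eq_sq_iff_eq_or_eq_neg.1 hsq with h10 | h10
    · rw [h10, map_mul, hσν, hσs]
    · rw [h10, map_neg, map_mul, hσν, hσs]
  have hne : Xs.det * a ^ (b * m') ≠ 0 := mul_ne_zero hX0 (pow_ne_zero _ ha0)
  have hsign : ((Equiv.Perm.sign π : ℤ) : N) = 1 := by
    have h9 : (((Equiv.Perm.sign π : ℤ) : N) - 1) * (Xs.det * a ^ (b * m')) = 0 := by
      rw [sub_mul, hfin, one_mul, sub_self]
    exact sub_eq_zero.1 ((mul_eq_zero.1 h9).resolve_right hne)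
  have h10 : (Equiv.Perm.sign π : ℤ) = 1 := by exact_mod_cast hsign
  exact Units.ext h10

end Pool.Agent.N558.AW
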