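import Mathlib

/-!
# Evenness: Bezout matrices and division (part 1 of the proof of `St_even`)
-/

set_option autoImplicit false

namespace Pool.Agent.N558.AW

open Polynomial Matrix

/-! ## Bezout sums -/

lemma rearr {N : Type} [AddCommMonoid N] (b : ℕ) (G : ℕ → ℕ → N)
    (hG : ∀ j j', b ≤ j + j' → G j j' = 0) :
    ∑ j ∈ Finset.range b, ∑ j' ∈ Finset.range b, G j j' =
      ∑ n ∈ Finset.range b, ∑ j ∈ Finset.range (n + 1), G j (n - j) := by
  have h1 : ∀ j ∈ Finset.range b, ∑ j' ∈ Finset.range b, G j j' =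
      ∑ n ∈ Finset.Ico j b, G j (n - j) := by
    intro j hj
    rw [Finset.sum_Ico_eq_sum_range]
    simp only [Nat.add_sub_cancel_left]
    symm
    refine Finset.sum_subset ?_ ?_
    · intro x hx
      simp only [Finset.mem_range] at hx ⊢
      omega
    · intro x _ hx
      apply hG
      simp only [Finset.mem_range] at hx
      omega
  rw [Finset.sum_congr rfl h1]
  simp only [Finset.range_eq_Ico]
  rw [Finset.sum_Ico_Ico_comm]

variable {N : Type} [Field N]

lemma bez_ne (p : N[X]) (b : ℕ) (hp : p.natDegree ≤ b) (x y : N) :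
    (∑ j ∈ Finset.range b, ∑ j' ∈ Finset.range b, x ^ j * p.coeff (j + j' + 1) * y ^ j') *
      (x - y) = p.eval x - p.eval y := by
  rw [rearr b (fun j j' => x ^ j * p.coeff (j + j' + 1) * y ^ j')]
  · rw [Polynomial.eval_eq_sum_range' (Nat.lt_succ_of_le hp) x,
      Polynomial.eval_eq_sum_range' (Nat.lt_succ_of_le hp) y, Finset.sum_range_succ',
      Finset.sum_range_succ', Finset.sum_mul]
    simp only [pow_zero, mul_one, add_sub_add_right_eq_sub, ← Finset.sum_sub_distrib]
    refine Finset.sum_congr rfl fun n _ => ?_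
    rw [← mul_sub, ← geom_sum₂_mul, ← mul_assoc, Finset.mul_sum]
    congr 1
    refine Finset.sum_congr rfl fun j hj => ?_
    have hj' : j ≤ n := by simpa [Nat.lt_succ_iff] using hj
    rw [Nat.add_sub_cancel' hj', Nat.add_sub_cancel]
    ring
  · intro j j' h
    show x ^ j * p.coeff (j + j' + 1) * y ^ j' = 0
    rw [Polynomial.coeff_eq_zero_of_natDegree_lt (by omega)]
    ring

lemma bez_eq (p : N[X]) (b : ℕ) (hb : 0 < b) (hp : p.natDegree ≤ b) (x : N) :
    ∑ j ∈ Finset.range b, ∑ j' ∈ Finset.range b, x ^ j * p.coeff (j + j' + 1) * x ^ j' =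
      (derivative p).eval x := by
  rw [rearr b (fun j j' => x ^ j * p.coeff (j + j' + 1) * x ^ j')]
  · have hd : (derivative p).natDegree < b := by
      have := Polynomial.natDegree_derivative_le p
      omega
    rw [Polynomial.eval_eq_sum_range' hd]
    refine Finset.sum_congr rfl fun n _ => ?_
    rw [Polynomial.coeff_derivative]
    have : ∀ j ∈ Finset.range (n + 1), x ^ j * p.coeff (j + (n - j) + 1) * x ^ (n - j) =
        p.coeff (n + 1) * x ^ n := by
      intro j hj
      have hj' : j ≤ n := by simpa [Nat.lt_succ_iff] using hj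
      rw [Nat.add_sub_cancel' hj', mul_comm (x ^ j), mul_assoc, ← pow_add,
        Nat.add_sub_cancel' hj']
    rw [Finset.sum_congr rfl this, Finset.sum_const, Finset.card_range, nsmul_eq_mul]
    push_cast
    ring
  · intro j j' h
    show x ^ j * p.coeff (j + j' + 1) * x ^ j' = 0
    rw [Polynomial.coeff_eq_zero_of_natDegree_lt (by omega)]
    ring

/-- The Bezout matrix. -/
def bz (m b : ℕ) (P : Matrix (Fin m) (Fin m) N[X]) : Matrix (Fin b × Fin m) (Fin b × Fin m) N :=
  fun x y => (P x.2 y.2).coeff (x.1 + y.1 + 1)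

/-- Evaluation matrices. -/
def ev {I : Type} (m b : ℕ) (r : I → N) (e : I → Fin m → N) : Matrix I (Fin b × Fin m) N :=
  fun i x => r i ^ (x.1 : ℕ) * e i x.2

lemma ev_bz_ev {I : Type} [DecidableEq I] (m b : ℕ) (hb : 0 < b) (P : Matrix (Fin m) (Fin m) N[X])
    (hP : ∀ l l', (P l l').natDegree ≤ b) (r : I → N) (hr : Function.Injective r)
    (e es : I → Fin m → N) (s : I → N)
    (h1 : ∀ i l', ∑ l, e i l * (P l l').eval (r i) = 0)
    (h2 : ∀ i l, ∑ l', (P l l').eval (r i) * es i l' = 0)
    (h3 : ∀ i, ∑ l, ∑ l', e i l * (derivative (P l l')).eval (r i) * es i l' = s i) :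
    ev m b r e * bz m b P * (ev m b r es)ᵀ = diagonal s := by
  have key : ∀ i i', (ev m b r e * bz m b P * (ev m b r es)ᵀ) i i' =
      ∑ l, ∑ l', e i l * (∑ j ∈ Finset.range b, ∑ j' ∈ Finset.range b,
        r i ^ j * (P l l').coeff (j + j' + 1) * r i' ^ j') * es i' l' := by
    intro i i'
    simp only [Matrix.mul_apply, Matrix.transpose_apply, ev, bz, Fintype.sum_prod_type,
      ← Fin.sum_univ_eq_sum_range, Finset.sum_mul, Finset.mul_sum]
    -- left: ∑ j', ∑ l', ∑ j, ∑ l ; right: ∑ l, ∑ l', ∑ j, ∑ j'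
    rw [Finset.sum_comm]
    rw [Finset.sum_congr rfl fun l' _ => Finset.sum_congr rfl fun j' _ => Finset.sum_comm]
    rw [Finset.sum_congr rfl fun l' _ => Finset.sum_comm]
    rw [Finset.sum_comm]
    refine Finset.sum_congr rfl fun l _ => Finset.sum_congr rfl fun l' _ => ?_
    rw [Finset.sum_comm]
    refine Finset.sum_congr rfl fun j _ => Finset.sum_congr rfl fun j' _ => ?_
    ring
  ext i i'
  rw [key]
  by_cases hii : i = i'
  · subst hii
    rw [diagonal_apply_eq, ← h3 i]
    refine Finset.sum_congr rfl fun l _ => Finset.sum_congr rfl fun l' _ => ?_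
    rw [bez_eq _ b hb (hP l l')]
  · rw [diagonal_apply_ne _ hii]
    have hne : r i - r i' ≠ 0 := sub_ne_zero.2 fun h => hii (hr h)
    refine (mul_eq_zero.1 ?_).resolve_right hne
    rw [Finset.sum_mul]
    have : ∀ l, (∑ l', e i l * (∑ j ∈ Finset.range b, ∑ j' ∈ Finset.range b,
        r i ^ j * (P l l').coeff (j + j' + 1) * r i' ^ j') * es i' l') * (r i - r i') =
        ∑ l', (e i l * (P l l').eval (r i)) * es i' l' -
          ∑ l', e i l * ((P l l').eval (r i') * es i' l') := by
      intro l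
      rw [Finset.sum_mul, ← Finset.sum_sub_distrib]
      refine Finset.sum_congr rfl fun l' _ => ?_
      have := bez_ne (P l l') b (hP l l') (r i) (r i')
      calc _ = e i l * ((∑ j ∈ Finset.range b, ∑ j' ∈ Finset.range b,
          r i ^ j * (P l l').coeff (j + j' + 1) * r i' ^ j') * (r i - r i')) * es i' l' := by ring
        _ = _ := by rw [this]; ring
    rw [Finset.sum_congr rfl fun l _ => this l, Finset.sum_sub_distrib, Finset.sum_comm]
    simp only [← Finset.sum_mul, ← Finset.mul_sum, h1, h2]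
    simp

/-! ## The determinant of the Bezout matrix -/

/-- Reversal in the first coordinate. -/
def rho (m b : ℕ) : Equiv.Perm (Fin b × Fin m) := Equiv.prodCongrLeft fun _ => Fin.revPerm

lemma sign_rho (m b : ℕ) (hm : Even m) : Equiv.Perm.sign (rho m b) = 1 := by
  rw [rho, Equiv.Perm.sign_prodCongrLeft, Finset.prod_const, Finset.card_univ, Fintype.card_fin]
  obtain ⟨k, rfl⟩ := hm
  rw [← two_mul, pow_mul, Int.units_sq, one_pow]

lemma det_bz (m b : ℕ) (hm : Even m) (P : Matrix (Fin m) (Fin m) N[X])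
    (hP : ∀ l l', (P l l').natDegree ≤ b) (c : N)
    (hc : ∀ l l', (P l l').coeff b = if l = l' then c else 0) :
    (bz m b P).det = c ^ (b * m) := by
  have h1 : ((bz m b P).submatrix id (rho m b)).det = (bz m b P).det := by
    rw [Matrix.det_permute', sign_rho m b hm]
    simp
  rw [← h1]
  have h2 : (((bz m b P).submatrix id (rho m b)).submatrix (ofLex (α := Fin b × Fin m))
      (ofLex (α := Fin b × Fin m))).det = ((bz m b P).submatrix id (rho m b)).det :=
    Matrix.det_submatrix_equiv_self (ofLex (α := Fin b × Fin m)) _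
  rw [← h2, Matrix.det_of_isUpperTriangular]
  · rw [Finset.prod_congr rfl (g := fun _ => c)]
    · rw [Finset.prod_const, Finset.card_univ]
      congr 1
      have : Fintype.card (Fin b ×ₗ Fin m) = Fintype.card (Fin b × Fin m) := rfl
      rw [this, Fintype.card_prod, Fintype.card_fin, Fintype.card_fin]
    · intro x _
      have h3 : ((ofLex x).1 : ℕ) + (Fin.rev (ofLex x).1 : ℕ) + 1 = b := by
        have := (ofLex x).1.isLt
        rw [Fin.val_rev]
        omega
      show (P (ofLex x).2 (ofLex x).2).coeff (((ofLex x).1 : ℕ) + (Fin.rev (ofLex x).1 : ℕ) + 1) = c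
      rw [h3, hc, if_pos rfl]
  · intro x y hxy
    show (P (ofLex x).2 (ofLex y).2).coeff (((ofLex x).1 : ℕ) + (Fin.rev (ofLex y).1 : ℕ) + 1) = 0
    have hxy' : y < x := hxy
    rw [Prod.Lex.lt_iff] at hxy'
    have hy := (ofLex y).1.isLt
    rcases hxy' with h | ⟨h, h'⟩
    · have h4 : ((ofLex y).1 : ℕ) < (ofLex x).1 := h
      apply Polynomial.coeff_eq_zero_of_natDegree_lt
      have := hP (ofLex x).2 (ofLex y).2
      rw [Fin.val_rev]
      omega
    · have h4 : ((ofLex x).1 : ℕ) + (Fin.rev (ofLex y).1 : ℕ) + 1 = b := by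
        rw [h, Fin.val_rev]
        have := (ofLex x).1.isLt
        omega
      rw [h4, hc, if_neg]
      exact h'.ne'

end Pool.Agent.N558.AW
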